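import Pool.Agent.MP_a2955b_co.Defs

set_option autoImplicit false

open Set

namespace Pool.Agent.MP_a2955b_co

/-- Euclidean space -/
abbrev E (d : ℕ) := EuclideanSpace ℝ (Fin d)

variable {d : ℕ}

/-- `S` is a union of `n` faces -/
def HasFaces (S : Set (E d)) (n : ℕ) : Prop :=
  ∃ F : Fin n → Set (E d), (∀ i, IsPolytope (d - 1) (F i)) ∧ S = ⋃ i, F i ∧
    ∀ i j, i ≠ j → F i ∩ F j ⊆ intrinsicFrontier ℝ (F i) ∩ intrinsicFrontier ℝ (F j)

lemma hasFaces_of_fintype {S : Set (E d)} {J : Type*} [Fintype J] (F : J → Set (E d))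
    (h1 : ∀ i, IsPolytope (d - 1) (F i)) (h2 : S = ⋃ i, F i)
    (h3 : ∀ i j, i ≠ j → F i ∩ F j ⊆ intrinsicFrontier ℝ (F i)) :
    HasFaces S (Fintype.card J) := by
  let e := (Fintype.equivFin J).symm
  refine ⟨F ∘ e, fun i => h1 _, ?_, fun i j hij => ?_⟩
  · rw [h2]
    exact (e.surjective.iUnion_comp F).symm
  · have hne : e i ≠ e j := fun h => hij (e.injective h)
    refine subset_inter (h3 _ _ hne) ?_
    rw [inter_comm]
    exact h3 _ _ hne.symm

lemma HasFaces.union {S S' : Set (E d)} {n n' : ℕ} (h : HasFaces S n) (h' : HasFaces S' n')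
    (hd : Disjoint S S') : HasFaces (S ∪ S') (n + n') := by
  obtain ⟨F, h1, h2, h3⟩ := h
  obtain ⟨F', h1', h2', h3'⟩ := h'
  have := hasFaces_of_fintype (S := S ∪ S') (Sum.elim F F') ?_ ?_ ?_
  · simpa using this
  · rintro (i | i)
    · exact h1 i
    · exact h1' i
  · rw [iUnion_sum, h2, h2']; rfl
  · have hF : ∀ i, F i ⊆ S := fun i => h2 ▸ subset_iUnion F i
    have hF' : ∀ i, F' i ⊆ S' := fun i => h2' ▸ subset_iUnion F' i
    rintro (i | i) (j | j) hij
    · exact (h3 i j (fun e => hij (by rw [e]))).trans inter_subset_left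
    · intro x hx
      exact absurd (hF' j hx.2) (Set.disjoint_left.mp hd (hF i hx.1))
    · intro x hx
      exact absurd (hF' i hx.1) (Set.disjoint_left.mp hd (hF j hx.2))
    · exact (h3' i j (fun e => hij (by rw [e]))).trans inter_subset_left

lemma hasFaces_empty : HasFaces (∅ : Set (E d)) 0 :=
  ⟨Fin.elim0, fun i => i.elim0, by simp, fun i => i.elim0⟩

lemma hasFaces_biUnion {α : Type*} (A : Finset α) (S : α → Set (E d)) (n : ℕ)
    (h : ∀ a ∈ A, HasFaces (S a) n) (hd : ∀ a ∈ A, ∀ b ∈ A, a ≠ b → Disjoint (S a) (S b)) :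
    HasFaces (⋃ a ∈ A, S a) (A.card * n) := by
  classical
  induction A using Finset.induction_on with
  | empty => simpa using hasFaces_empty
  | insert a A ha ih =>
    rw [Finset.set_biUnion_insert, Finset.card_insert_of_notMem ha, add_mul, one_mul, add_comm]
    apply (h a (Finset.mem_insert_self _ _)).union
    · exact ih (fun b hb => h b (Finset.mem_insert_of_mem hb))
        (fun b hb c hc => hd b (Finset.mem_insert_of_mem hb) c (Finset.mem_insert_of_mem hc))
    · simp only [disjoint_iUnion_right]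
      intro b hb
      exact hd a (Finset.mem_insert_self _ _) b (Finset.mem_insert_of_mem hb)
        (fun e => ha (e ▸ hb))

/-- a point of the relative interior can be pushed away from any point of the set -/
lemma exists_push {s : Set (E d)} {y z : E d} (hy : y ∈ intrinsicInterior ℝ s) (hz : z ∈ s) :
    ∃ t : ℝ, 0 < t ∧ y + t • (y - z) ∈ s := by
  obtain ⟨y', hy', rfl⟩ := mem_intrinsicInterior.mp hy
  have hzs : z ∈ affineSpan ℝ s := mem_affineSpan ℝ hz
  let γ : ℝ → affineSpan ℝ s := fun t => ⟨(y' : E d) + t • ((y' : E d) - z), by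
    have := (affineSpan ℝ s).smul_vsub_vadd_mem t y'.2 hzs y'.2
    simpa [add_comm] using this⟩
  have hγ : Continuous γ := by
    apply Continuous.subtype_mk
    fun_prop
  have h0 : γ 0 = y' := by simp [γ]
  have h1 : γ ⁻¹' (interior ((↑) ⁻¹' s : Set (affineSpan ℝ s))) ∈ nhds (0 : ℝ) :=
    hγ.continuousAt.preimage_mem_nhds (isOpen_interior.mem_nhds (h0 ▸ hy'))
  obtain ⟨ε, hε, hb⟩ := Metric.mem_nhds_iff.mp h1
  refine ⟨ε / 2, by positivity, ?_⟩
  have : γ (ε / 2) ∈ interior ((↑) ⁻¹' s : Set (affineSpan ℝ s)) := hb (by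
    rw [Metric.mem_ball, Real.dist_eq, sub_zero, abs_of_pos (by positivity)]
    linarith)
  have h2 := interior_subset this
  exact h2

lemma mem_intrinsicFrontier_of_not_push {s : Set (E d)} {y z : E d} (hy : y ∈ s) (hz : z ∈ s)
    (h : ∀ t : ℝ, 0 < t → y + t • (y - z) ∉ s) : y ∈ intrinsicFrontier ℝ s := by
  rw [← intrinsicClosure_sdiff_intrinsicInterior]
  refine ⟨subset_intrinsicClosure hy, fun hi => ?_⟩
  obtain ⟨t, ht, hm⟩ := exists_push hi hz
  exact h t ht hm

variable {ι : Type*} [Fintype ι] [DecidableEq ι] (T : E d ≃L[ℝ] (ι → ℝ))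

omit [Fintype ι] [DecidableEq ι] in
lemma box_mem_frontier {lo hi : ι → ℝ} {y : E d} (hy : y ∈ T ⁻¹' Icc lo hi) (c : ι)
    (hc : lo c < hi c) (he : T y c = lo c ∨ T y c = hi c) :
    y ∈ intrinsicFrontier ℝ (T ⁻¹' Icc lo hi) := by
  have hle : lo ≤ hi := hy.1.trans hy.2
  rcases he with he | he
  · apply mem_intrinsicFrontier_of_not_push hy (z := T.symm hi)
    · simpa using hle
    · intro t ht hm
      have := hm.1 c
      simp only [map_add, map_smul, map_sub, ContinuousLinearEquiv.apply_symm_apply, Pi.add_apply,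
        Pi.smul_apply, Pi.sub_apply, smul_eq_mul, he] at this
      nlinarith
  · apply mem_intrinsicFrontier_of_not_push hy (z := T.symm lo)
    · simpa using hle
    · intro t ht hm
      have := hm.2 c
      simp only [map_add, map_smul, map_sub, ContinuousLinearEquiv.apply_symm_apply, Pi.add_apply,
        Pi.smul_apply, Pi.sub_apply, smul_eq_mul, he] at this
      nlinarith

omit [DecidableEq ι] in
lemma box_eq_convexHull {lo hi : ι → ℝ} (h : lo ≤ hi) :
    T ⁻¹' Icc lo hi = convexHull ℝ (T.symm '' (Set.pi univ (fun c => {lo c, hi c}))) := by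
  have h1 : Icc lo hi = convexHull ℝ (Set.pi univ (fun c => ({lo c, hi c} : Set ℝ))) := by
    rw [convexHull_pi, ← pi_univ_Icc]
    congr 1
    funext c
    rw [convexHull_pair, segment_eq_Icc (h c)]
  rw [h1, ← T.image_symm_eq_preimage]
  exact (T.symm : (ι → ℝ) →ₗ[ℝ] E d).image_convexHull _

lemma isPolytope_facet {lo hi : ι → ℝ} (c : ι) (hc : lo c = hi c)
    (h : ∀ c', c' ≠ c → lo c' < hi c') : IsPolytope (d - 1) (T ⁻¹' Icc lo hi) := by
  have hle : lo ≤ hi := fun c' => by
    by_cases e : c' = c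
    · rw [e, hc]
    · exact (h c' e).le
  refine ⟨_, ?_, ?_, box_eq_convexHull T hle, ?_⟩
  · exact (Set.Finite.pi (fun c => toFinite ({lo c, hi c} : Set ℝ))).image _
  · exact ⟨T.symm lo, lo, fun c _ => by simp, rfl⟩
  · let f : Module.Dual ℝ (E d) := (LinearMap.proj c).comp (T : E d →ₗ[ℝ] (ι → ℝ))
    have hf : ∀ x, f x = T x c := fun x => rfl
    have hf0 : f ≠ 0 := by
      intro h0
      have := hf (T.symm (Pi.single c 1))
      rw [h0] at this
      simp at this
    have hker : vectorSpan ℝ (T ⁻¹' Icc lo hi) = LinearMap.ker f := by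
      apply le_antisymm
      · rw [vectorSpan_def, Submodule.span_le]
        rintro _ ⟨x, hx, y, hy, rfl⟩
        have h1 := hx.1 c
        have h2 := hx.2 c
        have h3 := hy.1 c
        have h4 := hy.2 c
        simp only [vsub_eq_sub, SetLike.mem_coe, LinearMap.mem_ker, hf, map_sub, Pi.sub_apply]
        linarith
      · intro x hx
        rw [LinearMap.mem_ker, hf] at hx
        have e : x = ∑ c' : ι, (T x c') • T.symm (Pi.single c' 1) := by
          apply T.injective
          simp only [map_sum, map_smul, ContinuousLinearEquiv.apply_symm_apply]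
          funext c''
          simp [Finset.sum_apply, Pi.single_apply]
        rw [e]
        apply Submodule.sum_mem
        intro c' _
        by_cases e' : c' = c
        · rw [e', hx, zero_smul]; exact Submodule.zero_mem _
        · apply Submodule.smul_mem
          have hpos := sub_pos.mpr (h c' e')
          have m1 : T.symm (lo + (hi c' - lo c') • Pi.single c' 1) ∈ T ⁻¹' Icc lo hi := by
            simp only [mem_preimage, ContinuousLinearEquiv.apply_symm_apply]
            constructor
            · intro c''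
              by_cases e'' : c'' = c'
              · subst e''; simp; linarith
              · simp [e'']
            · intro c''
              by_cases e'' : c'' = c'
              · subst e''; simp
              · simpa [Pi.single_apply, e''] using hle c''
          have m2 : T.symm lo ∈ T ⁻¹' Icc lo hi := by simpa using hle
          have m3 := Submodule.smul_mem _ (hi c' - lo c')⁻¹ (vsub_mem_vectorSpan ℝ m1 m2)
          rw [vsub_eq_sub, ← map_sub, add_sub_cancel_left, map_smul, smul_smul,
            inv_mul_cancel₀ hpos.ne', one_smul] at m3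
          exact m3
    rw [hker]
    have := Module.Dual.finrank_ker_add_one_of_ne_zero hf0
    rw [finrank_euclideanSpace, Fintype.card_fin] at this
    exact Nat.eq_sub_of_add_eq this

omit [DecidableEq ι] in
lemma interior_box (lo hi : ι → ℝ) :
    interior (T ⁻¹' Icc lo hi) = {x | ∀ c, lo c < T x c ∧ T x c < hi c} := by
  have := T.toHomeomorph.preimage_interior (Icc lo hi)
  simp only [ContinuousLinearEquiv.coe_toHomeomorph] at this
  rw [← this, ← pi_univ_Icc, interior_pi_set finite_univ]
  ext x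
  simp

omit [DecidableEq ι] [Fintype ι] in
lemma isCompact_box (lo hi : ι → ℝ) : IsCompact (T ⁻¹' Icc lo hi) :=
  T.toHomeomorph.isCompact_preimage.mpr isCompact_Icc

omit [DecidableEq ι] in
lemma closure_interior_box {lo hi : ι → ℝ} (h : ∀ c, lo c < hi c) :
    closure (interior (T ⁻¹' Icc lo hi)) = T ⁻¹' Icc lo hi := by
  have hc : Convex ℝ (T ⁻¹' Icc lo hi) :=
    (convex_Icc lo hi).linear_preimage (T : E d →ₗ[ℝ] (ι → ℝ))
  rw [hc.closure_interior_eq_closure_of_nonempty_interior, (isCompact_box T lo hi).isClosed.closure_eq]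
  rw [interior_box]
  refine ⟨T.symm (fun c => (lo c + hi c) / 2), fun c => ?_⟩
  have := h c
  simp only [ContinuousLinearEquiv.apply_symm_apply]
  constructor <;> linarith

lemma exists_strip (r : ℕ) {u : ℝ} (h0 : 0 ≤ u) (h1 : u ≤ r + 1) :
    ∃ q : Fin (r + 1), ((q : ℕ) : ℝ) ≤ u ∧ u ≤ (q : ℕ) + 1 := by
  by_cases h : (r : ℝ) ≤ u
  · exact ⟨Fin.last r, by simpa using h, by simpa using h1⟩
  · push Not at h
    have h2 : ⌊u⌋₊ < r := (Nat.floor_lt h0).mpr h
    exact ⟨⟨⌊u⌋₊, by omega⟩, Nat.floor_le h0, (Nat.lt_floor_add_one u).le⟩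

theorem hasFaces_box (hd : Fintype.card ι = d) (h2 : 2 ≤ d) {lo hi : ι → ℝ}
    (h : ∀ c, lo c < hi c) (r : ℕ) : HasFaces (frontier (T ⁻¹' Icc lo hi)) (2 * d + r) := by
  have : Nontrivial ι := Fintype.one_lt_card_iff_nontrivial.mp (by omega)
  choose σ hσ using fun c : ι => exists_ne c
  obtain ⟨c₀⟩ : Nonempty ι := inferInstance
  let ρ : ι × Bool → ℕ := Pi.single (c₀, true) r
  let e : ι × Bool → ℝ := fun p => if p.2 then hi p.1 else lo p.1
  let w : ι × Bool → ℝ := fun p => (hi (σ p.1) - lo (σ p.1)) / (ρ p + 1)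
  have hw : ∀ p, 0 < w p := fun p => div_pos (sub_pos.mpr (h _)) (by positivity)
  have hw' : ∀ p, w p * (ρ p + 1) = hi (σ p.1) - lo (σ p.1) := fun p =>
    div_mul_cancel₀ _ (by positivity)
  let J := Σ p : ι × Bool, Fin (ρ p + 1)
  let L : J → ι → ℝ := fun j c => if c = j.1.1 then e j.1 else
    if c = σ j.1.1 then lo c + (j.2 : ℕ) * w j.1 else lo c
  let U : J → ι → ℝ := fun j c => if c = j.1.1 then e j.1 else
    if c = σ j.1.1 then lo c + ((j.2 : ℕ) + 1) * w j.1 else hi c
  have hLU : ∀ j c, c ≠ j.1.1 → L j c < U j c := by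
    intro j c hc
    simp only [L, U, if_neg hc]
    split_ifs
    · have := hw j.1; nlinarith
    · exact h c
  have hLe : ∀ j, L j j.1.1 = e j.1 := fun j => by simp [L]
  have hUe : ∀ j, U j j.1.1 = e j.1 := fun j => by simp [U]
  have he : ∀ p, e p = lo p.1 ∨ e p = hi p.1 := fun p => by
    simp only [e]; split_ifs <;> simp
  have hloL : ∀ j c, lo c ≤ L j c := by
    intro j c
    simp only [L]
    split_ifs with h1 h2
    · rcases he j.1 with h3 | h3 <;> rw [h3, h1]
      exact (h _).le
    · have := hw j.1; nlinarith [(Nat.cast_nonneg (j.2 : ℕ) : (0 : ℝ) ≤ _)]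
    · exact le_rfl
  have hUhi : ∀ j c, U j c ≤ hi c := by
    intro j c
    simp only [U]
    split_ifs with h1 h2
    · rcases he j.1 with h3 | h3 <;> rw [h3, h1]
      exact (h _).le
    · have h3 := hw j.1
      have h4 := hw' j.1
      have h5 : ((j.2 : ℕ) : ℝ) ≤ ρ j.1 := by exact_mod_cast Nat.lt_succ_iff.mp j.2.isLt
      rw [h2]
      nlinarith
    · exact le_rfl
  have hcard : Fintype.card J = 2 * d + r := by
    simp only [J, Fintype.card_sigma, Fintype.card_fin, Finset.sum_add_distrib, ρ]
    simp [hd]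
    ring
  rw [← hcard]
  apply hasFaces_of_fintype (fun j : J => T ⁻¹' Icc (L j) (U j))
  · intro j
    exact isPolytope_facet T j.1.1 (by rw [hLe, hUe]) (hLU j)
  · rw [(isCompact_box T lo hi).isClosed.frontier_eq, interior_box]
    ext x
    simp only [mem_sdiff, mem_preimage, mem_Icc, mem_ofPred_eq, mem_iUnion, not_forall]
    constructor
    · rintro ⟨⟨hx1, hx2⟩, c, hc⟩
      obtain ⟨s, hs⟩ : ∃ s : Bool, T x c = e (c, s) := by
        by_cases h1 : T x c = lo c
        · exact ⟨false, by simp [e, h1]⟩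
        · refine ⟨true, ?_⟩
          have h3 : lo c < T x c := lt_of_le_of_ne (hx1 c) (Ne.symm h1)
          have h4 : ¬ T x c < hi c := fun h5 => hc ⟨h3, h5⟩
          simp only [e, if_true]
          exact le_antisymm (hx2 c) (not_lt.mp h4)
      have hwp := hw (c, s)
      have hwp' := hw' (c, s)
      obtain ⟨q, hq1, hq2⟩ := exists_strip (ρ (c, s)) (u := (T x (σ c) - lo (σ c)) / w (c, s))
        (div_nonneg (sub_nonneg.mpr (hx1 _)) hwp.le) (by
          rw [div_le_iff₀ hwp]
          have := hx2 (σ c)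
          simp only at hwp'
          linarith)
      rw [le_div_iff₀ hwp] at hq1
      rw [div_le_iff₀ hwp] at hq2
      refine ⟨⟨(c, s), q⟩, fun c' => ?_, fun c' => ?_⟩
      · simp only [L]
        split_ifs with h1 h3
        · rw [h1, hs]
        · rw [h3]; linarith
        · exact hx1 c'
      · simp only [U]
        split_ifs with h1 h3
        · rw [h1, hs]
        · rw [h3]; linarith
        · exact hx2 c'
    · rintro ⟨j, hx1, hx2⟩
      refine ⟨⟨fun c => (hloL j c).trans (hx1 c), fun c => (hx2 c).trans (hUhi j c)⟩, j.1.1, ?_⟩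
      have h3 := hx1 j.1.1
      have h4 := hx2 j.1.1
      rw [hLe] at h3
      rw [hUe] at h4
      rintro ⟨h5, h6⟩
      rcases he j.1 with h7 | h7 <;> linarith
  · rintro j j' hjj x ⟨hx, hx'⟩
    have h3 : T x j.1.1 = e j.1 := le_antisymm (hUe j ▸ hx.2 j.1.1) (hLe j ▸ hx.1 j.1.1)
    have h3' : T x j'.1.1 = e j'.1 := le_antisymm (hUe j' ▸ hx'.2 j'.1.1) (hLe j' ▸ hx'.1 j'.1.1)
    by_cases hc : j'.1.1 = j.1.1
    · obtain ⟨⟨c, s⟩, q⟩ := j
      obtain ⟨⟨c', s'⟩, q'⟩ := j'
      simp only at hc
      subst hc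
      have hs : s' = s := by
        by_contra hs
        have h5 := h c'
        simp only at h3 h3'
        rw [h3] at h3'
        cases s <;> cases s' <;> simp [e] at hs h3' <;> linarith
      subst hs
      have hq : (q : ℕ) ≠ q' := fun e => hjj (by rw [Fin.ext e])
      have hwp := hw (c', s')
      have a1 := hx.1 (σ c')
      have a2 := hx.2 (σ c')
      have a3 := hx'.1 (σ c')
      have a4 := hx'.2 (σ c')
      apply box_mem_frontier T hx (σ c') (hLU _ _ (hσ c'))
      simp only [L, U, if_neg (hσ c'), if_true] at a1 a2 a3 a4 ⊢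
      rcases lt_or_gt_of_ne hq with hlt | hlt
      · right
        have : ((q : ℕ) : ℝ) + 1 ≤ (q' : ℕ) := by exact_mod_cast hlt
        nlinarith
      · left
        have : ((q' : ℕ) : ℝ) + 1 ≤ (q : ℕ) := by exact_mod_cast hlt
        nlinarith
    · apply box_mem_frontier T hx j'.1.1 (hLU _ _ hc)
      have a1 := hx.1 j'.1.1
      have a2 := hx.2 j'.1.1
      have a3 := hloL j j'.1.1
      have a4 := hUhi j j'.1.1
      rcases he j'.1 with h7 | h7
      · left; linarith
      · right; linarith

/-- removing disjoint convex bodies from a big one -/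
theorem isPolyhedron_diff {α : Type*} (A : Finset α) (B : Set (E d)) (O : α → Set (E d))
    (hB : IsCompact B) (hB' : closure (interior B) = B) (hO : ∀ a ∈ A, IsClosed (O a))
    (hO' : ∀ a ∈ A, closure (interior (O a)) = O a) (hOB : ∀ a ∈ A, O a ⊆ interior B)
    (hd : ∀ a ∈ A, ∀ b ∈ A, a ≠ b → Disjoint (O a) (O b)) {n n' : ℕ}
    (hfB : HasFaces (frontier B) n) (hfO : ∀ a ∈ A, HasFaces (frontier (O a)) n') :
    IsPolyhedron (B \ ⋃ a ∈ A, interior (O a)) (n + A.card * n') := by
  set P := B \ ⋃ a ∈ A, interior (O a) with hP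
  have hUo : IsOpen (⋃ a ∈ A, interior (O a)) := isOpen_biUnion (fun _ _ => isOpen_interior)
  have hUc : IsClosed (⋃ a ∈ A, O a) := isClosed_biUnion_finset hO
  have hPc : IsCompact P := hB.diff hUo
  have hint : interior P = interior B \ ⋃ a ∈ A, O a := by
    rw [hP, sdiff_eq, interior_inter, interior_compl, A.closure_biUnion, sdiff_eq]
    congr 2
    exact iUnion₂_congr hO'
  refine ⟨hPc, ?_, ?_⟩
  · apply subset_antisymm (hPc.isClosed.closure_subset_iff.mpr interior_subset)
    rintro x ⟨hxB, hxO⟩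
    rw [hint]
    by_cases hx : x ∈ ⋃ a ∈ A, O a
    · simp only [mem_iUnion, exists_prop] at hx
      obtain ⟨a, ha, hxa⟩ := hx
      classical
      have hV : IsOpen (interior B \ ⋃ b ∈ A.erase a, O b) :=
        isOpen_interior.sdiff (isClosed_biUnion_finset (fun b hb => hO b (Finset.mem_of_mem_erase hb)))
      have hxV : x ∈ interior B \ ⋃ b ∈ A.erase a, O b := by
        refine ⟨hOB a ha hxa, ?_⟩
        simp only [mem_iUnion, exists_prop, not_exists, not_and]
        intro b hb hxb
        exact Set.disjoint_left.mp (hd a ha b (Finset.mem_of_mem_erase hb)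
          (Finset.ne_of_mem_erase hb).symm) hxa hxb
      have hxc : x ∈ closure (O a)ᶜ := by
        rw [closure_compl]
        intro hxi
        exact hxO (mem_biUnion ha hxi)
      refine closure_mono ?_ (hV.inter_closure ⟨hxV, hxc⟩)
      rintro y ⟨⟨hy1, hy2⟩, hy3⟩
      refine ⟨hy1, ?_⟩
      simp only [mem_iUnion, exists_prop, not_exists, not_and] at hy2 ⊢
      intro b hb hyb
      by_cases hba : b = a
      · exact hy3 (hba ▸ hyb)
      · exact hy2 b (Finset.mem_erase.mpr ⟨hba, hb⟩) hyb
    · have := hUc.isOpen_compl.inter_closure (t := interior B) ⟨hx, hB'.symm ▸ hxB⟩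
      rwa [inter_comm, ← sdiff_eq] at this
  · have hfr : frontier P = frontier B ∪ ⋃ a ∈ A, frontier (O a) := by
      rw [hPc.isClosed.frontier_eq, hint, hB.isClosed.frontier_eq]
      ext x
      simp only [hP, mem_sdiff, mem_iUnion, exists_prop, mem_union, not_and, not_not]
      constructor
      · rintro ⟨⟨h1, h2⟩, h3⟩
        by_cases h4 : x ∈ interior B
        · obtain ⟨a, ha, hxa⟩ := h3 h4
          right
          refine ⟨a, ha, ?_⟩
          rw [(hO a ha).frontier_eq]
          exact ⟨hxa, fun hi => h2 ⟨a, ha, hi⟩⟩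
        · exact Or.inl ⟨h1, h4⟩
      · rintro (⟨h1, h2⟩ | ⟨a, ha, hxa⟩)
        · refine ⟨⟨h1, ?_⟩, fun h3 => absurd h3 h2⟩
          rintro ⟨a, ha, hi⟩
          exact h2 (hOB a ha (interior_subset hi))
        · rw [(hO a ha).frontier_eq] at hxa
          refine ⟨⟨interior_subset (hOB a ha hxa.1), ?_⟩, fun _ => ⟨a, ha, hxa.1⟩⟩
          rintro ⟨b, hb, hi⟩
          by_cases hba : b = a
          · exact hxa.2 (hba ▸ hi)
          · exact Set.disjoint_left.mp (hd b hb a ha hba) (interior_subset hi) hxa.1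
    have := hfB.union (hasFaces_biUnion A (fun a => frontier (O a)) n' hfO (fun a ha b hb hab =>
      (hd a ha b hb hab).mono (hO a ha).frontier_subset (hO b hb).frontier_subset)) (by
        simp only [disjoint_iUnion_right]
        intro a ha
        exact (disjoint_interior_frontier.symm).mono_right
          ((hO a ha).frontier_subset.trans (hOB a ha)))
    rw [← hfr] at this
    exact this

/-- pairwise invisible witnesses force many pieces -/
theorem card_le_of_hidden {P : Set (E d)} {M : ℕ} {C : Fin M → Set (E d)}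
    (hC : IsConvexPartition P C) {β : Type*} [Fintype β] (p : β → E d) (hp : ∀ a, p a ∈ P)
    (hid : ∀ a b, a ≠ b → ¬ segment ℝ (p a) (p b) ⊆ P) : Fintype.card β ≤ M := by
  obtain ⟨h1, -, h3⟩ := hC
  have : ∀ a, ∃ i, p a ∈ C i := fun a => by
    have := hp a
    rw [← h3] at this
    exact mem_iUnion.mp this
  choose f hf using this
  have hinj : Function.Injective f := by
    intro a b hab
    by_contra hne
    apply hid a b hne
    obtain ⟨V, -, -, hV, -⟩ := h1 (f a)
    have hc : Convex ℝ (C (f a)) := hV ▸ convex_convexHull ℝ V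
    refine (hc.segment_subset (hf a) (hab ▸ hf b)).trans ?_
    rw [← h3]
    exact subset_iUnion C _
  simpa using Fintype.card_le_of_injective f hinj

end Pool.Agent.MP_a2955b_co
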