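import Pool.Agent.MP_a2955b_co.Boxes

set_option autoImplicit false

open Set

namespace Pool.Agent.MP_a2955b_co

/-- ordered pairs of indices -/
abbrev Pr (k : ℕ) := {p : Fin k × Fin k // p.1 < p.2}

/-- coordinates -/
abbrev I (k r : ℕ) := Fin k ⊕ (Pr k ⊕ Fin r)

variable {k r : ℕ}

/-- the shear -/
def shearFun (i : Fin k) (β : ℝ) (x : I k r → ℝ) : I k r → ℝ
  | .inl j => x (.inl j)
  | .inr (.inl p) => x (.inr (.inl p)) -
      (if p.1.1 = i then β * x (.inl p.1.2) else if p.1.2 = i then β * x (.inl p.1.1) else 0)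
  | .inr (.inr j) => x (.inr (.inr j))

/-- the shear as a linear equivalence -/
def shear (i : Fin k) (β : ℝ) : (I k r → ℝ) ≃ₗ[ℝ] (I k r → ℝ) where
  toFun := shearFun i β
  invFun := shearFun i (-β)
  map_add' x y := by
    funext c
    rcases c with j | p | j <;> simp only [shearFun, Pi.add_apply]
    split_ifs <;> ring
  map_smul' a x := by
    funext c
    rcases c with j | p | j <;> simp only [shearFun, Pi.smul_apply, smul_eq_mul, RingHom.id_apply]
    split_ifs <;> ring
  left_inv x := by
    funext c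
    rcases c with j | p | j <;> simp only [shearFun]
    split_ifs <;> ring
  right_inv x := by
    funext c
    rcases c with j | p | j <;> simp only [shearFun]
    split_ifs <;> ring

/-- lower corner of an obstacle -/
noncomputable def lo (ε τ R : ℝ) (i : Fin k) (β : ℝ) (s : Fin k → Bool) : I k r → ℝ
  | .inl j => if j = i then β - τ else -R
  | .inr (.inl p) => if p.1.1 = i then (if s p.1.2 then ε else -R) else
      if p.1.2 = i then -1 / 40 else -R
  | .inr (.inr _) => -R

/-- upper corner of an obstacle -/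
noncomputable def hi (ε τ R : ℝ) (i : Fin k) (β : ℝ) (s : Fin k → Bool) : I k r → ℝ
  | .inl j => if j = i then β + τ else R
  | .inr (.inl p) => if p.1.1 = i then (if s p.1.2 then R else -1 / 20) else
      if p.1.2 = i then -ε else R
  | .inr (.inr _) => R

/-- the lifted point -/
def lift (x : Fin k → ℝ) : I k r → ℝ
  | .inl j => x j
  | .inr (.inl p) => x p.1.1 * x p.1.2
  | .inr (.inr _) => 0

variable {ε τ R : ℝ}

lemma lo_lt_hi (hε : 0 < ε) (hε' : ε ≤ 1 / 100) (hτ : 0 < τ) (hR : 1 ≤ R) (i : Fin k) (β : ℝ)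
    (s : Fin k → Bool) (c : I k r) : lo ε τ R i β s c < hi ε τ R i β s c := by
  rcases c with j | p | j <;> simp only [lo, hi]
  · split_ifs <;> linarith
  · split_ifs <;> linarith
  · linarith

lemma obstacle_bound {m : ℝ} (hε : 0 < ε) (hε' : ε ≤ 1 / 100) (hτ' : τ ≤ 1 / 4)
    (hm : 0 ≤ m) (hR : m + 1 ≤ R) {i : Fin k} {β : ℝ} (hβ0 : 0 ≤ β) (hβ : β ≤ m)
    {s : Fin k → Bool} {x : I k r → ℝ}
    (hx : shearFun i β x ∈ Icc (lo ε τ R i β s) (hi ε τ R i β s)) (c : I k r) :
    -(R * (m + 2)) < x c ∧ x c < R * (m + 2) := by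
  have hall : ∀ c, -R ≤ shearFun i β x c ∧ shearFun i β x c ≤ R := by
    intro c
    have h1 := hx.1 c
    have h2 := hx.2 c
    rcases c with j | p | j <;> simp only [lo, hi] at h1 h2
    · split_ifs at h1 h2 <;> constructor <;> linarith
    · split_ifs at h1 h2 <;> constructor <;> linarith
    · constructor <;> linarith
  have hx' : ∀ j, -R ≤ x (.inl j) ∧ x (.inl j) ≤ R := fun j => hall (.inl j)
  have hRm : 0 ≤ R * m := by nlinarith
  rcases c with j | p | j
  · have := hx' j
    constructor <;> nlinarith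
  · have h1 := hall (.inr (.inl p))
    have h2 := hx' p.1.1
    have h3 := hx' p.1.2
    simp only [shearFun] at h1
    split_ifs at h1 <;> constructor <;> nlinarith
  · have h1 := hall (.inr (.inr j))
    simp only [shearFun] at h1
    constructor <;> nlinarith

lemma disjoint_lt {m : ℝ} (hε' : ε ≤ 1 / 100) (hτ : 0 < τ) (hτε : 2 * τ * m < ε)
    {i j : Fin k} (hij : i < j) {β β' : ℝ} (hβ0 : 0 ≤ β) (hβ : β ≤ m) (hβ0' : 0 ≤ β')
    (hβ' : β' ≤ m) {s s' : Fin k → Bool} {x : I k r → ℝ}
    (hx : shearFun i β x ∈ Icc (lo ε τ R i β s) (hi ε τ R i β s))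
    (hx' : shearFun j β' x ∈ Icc (lo ε τ R j β' s') (hi ε τ R j β' s')) : False := by
  have a1 := hx.1 (.inl i)
  have a2 := hx.2 (.inl i)
  have a3 := hx'.1 (.inl j)
  have a4 := hx'.2 (.inl j)
  have b1 := hx.1 (.inr (.inl ⟨(i, j), hij⟩))
  have b2 := hx.2 (.inr (.inl ⟨(i, j), hij⟩))
  have b3 := hx'.1 (.inr (.inl ⟨(i, j), hij⟩))
  have b4 := hx'.2 (.inr (.inl ⟨(i, j), hij⟩))
  simp only [lo, hi, shearFun, if_true, if_neg hij.ne] at a1 a2 a3 a4 b1 b2 b3 b4
  have c1 : β' * (x (.inl i) - β) ≤ m * τ := by nlinarith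
  have c2 : -(m * τ) ≤ β' * (x (.inl i) - β) := by nlinarith
  have c3 : β * (x (.inl j) - β') ≤ m * τ := by nlinarith
  have c4 : -(m * τ) ≤ β * (x (.inl j) - β') := by nlinarith
  split_ifs at b1 b2 <;> nlinarith

lemma block {m θ : ℝ} (hθ : 0 < θ) (hε : ε = θ / 32) (hτ : 0 < τ) (hm : 1 ≤ m)
    (hR : R = (m + 1) ^ 2) (x x' : Fin k → ℝ) (i : Fin k) (β : ℝ)
    (h0 : ∀ j, 0 ≤ x j ∧ x j ≤ m) (h0' : ∀ j, 0 ≤ x' j ∧ x' j ≤ m)
    (hA : 49 / 100 ≤ β - x i) (hA' : β - x i ≤ 1 / 2) (hB : 1 / 2 ≤ x' i - β)
    (hgt : ∀ j, i < j → θ ≤ x' j - x j ∨ x' j - x j ≤ -99 / 100)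
    (hlt : ∀ j, j < i → -1 / 100 ≤ x' j - x j ∧ x' j - x j ≤ -θ) :
    ∃ t : ℝ, 0 ≤ t ∧ t ≤ 1 ∧ ∃ s : Fin k → Bool, (∀ j, j ≤ i → s j = true) ∧
      ∀ c : I k r, lo ε τ R i β s c < shearFun i β ((1 - t) • lift x + t • lift x') c ∧
        shearFun i β ((1 - t) • lift x + t • lift x') c < hi ε τ R i β s c := by
  classical
  set A := β - x i with hAdef
  set B := x' i - β with hBdef
  have hAB : 0 < A + B := by linarith
  set t := A / (A + B) with ht
  have ht0 : 0 ≤ t := div_nonneg (by linarith) hAB.le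
  have ht1 : t ≤ 1 := (div_le_one hAB).mpr (by linarith)
  have htAB : t * (A + B) = A := div_mul_cancel₀ _ hAB.ne'
  set μ := t * B with hμ
  have hμ1 : 1 / 16 ≤ μ := by
    rw [hμ, ht, div_mul_eq_mul_div, le_div_iff₀ hAB]
    nlinarith
  have hμ2 : μ ≤ 1 / 2 := by nlinarith
  have hβ : (1 - t) * x i + t * x' i = β := by
    have : x i = β - A := by linarith
    have h2 : x' i = β + B := by linarith
    rw [this, h2]; linarith
  have hv : ∀ q, (1 - t) * (x i * x q) + t * (x' i * x' q) - β * ((1 - t) * x q + t * x' q)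
      = μ * (x' q - x q) := by
    intro q
    have h1 : x i = β - A := by linarith
    have h2 : x' i = β + B := by linarith
    have h3 : (1 - t) * A = μ := by rw [hμ]; linarith
    rw [h1, h2]
    linear_combination (-x q) * h3
  have hRm : m < R := by nlinarith
  refine ⟨t, ht0, ht1, fun j => decide (j ≤ i ∨ 0 < x' j - x j), fun j hj => by simp [hj], ?_⟩
  rintro (j | p | j)
  · simp only [lo, hi, shearFun, lift, Pi.add_apply, Pi.smul_apply, smul_eq_mul]
    split_ifs with h
    · rw [h, hβ]; constructor <;> linarith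
    · have h1 := h0 j
      have h2 := h0' j
      constructor <;> nlinarith
  · obtain ⟨⟨p, q⟩, hpq⟩ := p
    simp only [lo, hi, shearFun, lift, Pi.add_apply, Pi.smul_apply, smul_eq_mul]
    by_cases h1 : p = i
    · subst h1
      simp only [if_true]
      rw [hv q]
      have h2 := h0 q
      have h3 := h0' q
      have h4 : ¬ q ≤ p := not_le.mpr hpq
      by_cases h5 : 0 < x' q - x q
      · simp only [h4, h5, or_true, decide_true, if_true]
        rcases hgt q hpq with h6 | h6
        · constructor <;> nlinarith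
        · linarith
      · simp only [h4, h5, or_self, decide_false, Bool.false_eq_true, if_false]
        rcases hgt q hpq with h6 | h6
        · linarith
        · constructor <;> nlinarith
    · simp only [if_neg h1]
      by_cases h2 : q = i
      · subst h2
        simp only [if_true]
        rw [mul_comm (x p), mul_comm (x' p), hv p]
        have h6 := hlt p hpq
        constructor <;> nlinarith
      · simp only [if_neg h2, sub_zero]
        have a1 := h0 p
        have a2 := h0' p
        have a3 := h0 q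
        have a4 := h0' q
        have b1 : 0 ≤ x p * x q := mul_nonneg a1.1 a3.1
        have b2 : 0 ≤ x' p * x' q := mul_nonneg a2.1 a4.1
        have b3 : x p * x q ≤ m * m := mul_le_mul a1.2 a3.2 a3.1 (by linarith)
        have b4 : x' p * x' q ≤ m * m := mul_le_mul a2.2 a4.2 a4.1 (by linarith)
        constructor <;> nlinarith
  · simp only [lo, hi, shearFun, lift, Pi.add_apply, Pi.smul_apply, smul_eq_mul]
    constructor <;> nlinarith

open Classical in
/-- lexicographic rank -/
noncomputable def rank {m : ℕ} (a : Fin k → Fin m) : ℕ :=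
  (Finset.univ.filter (fun y : Fin k → Fin m => toLex y < toLex a)).card

lemma rank_lt_rank {m : ℕ} {a b : Fin k → Fin m} (h : toLex a < toLex b) : rank a < rank b := by
  classical
  unfold rank
  apply Finset.card_lt_card
  rw [Finset.ssubset_iff_of_subset]
  · exact ⟨a, by simpa using h, fun h' => lt_irrefl (toLex a) (Finset.mem_filter.mp h').2⟩
  · intro y hy
    simp only [Finset.mem_filter, Finset.mem_univ, true_and] at hy ⊢
    exact hy.trans h

lemma rank_le {m : ℕ} (a : Fin k → Fin m) : rank a ≤ m ^ k := by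
  classical
  have := Finset.card_filter_le (Finset.univ : Finset (Fin k → Fin m))
    (fun y : Fin k → Fin m => toLex y < toLex a)
  simpa [rank] using this

/-- reflected tuple -/
def refl {m : ℕ} (j : Fin k) (a : Fin k → Fin m) : Fin k → Fin m :=
  fun l => if l ≤ j then a l else (a l).rev

lemma refl_lt_of_lt {m : ℕ} {a b : Fin k → Fin m} {i j : Fin k} (h1 : ∀ l, l < i → a l = b l)
    (h2 : a i < b i) (hij : i < j) : toLex (refl j a) < toLex (refl j b) := by
  refine ⟨i, fun l hl => ?_, ?_⟩
  · change refl j a l = refl j b l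
    simp only [refl, h1 l hl]
  · change refl j a i < refl j b i
    simpa [refl, hij.le] using h2

lemma refl_lt_of_gt {m : ℕ} {a b : Fin k → Fin m} {i j : Fin k} (h1 : ∀ l, l < i → a l = b l)
    (h2 : a i < b i) (hij : j < i) : toLex (refl j b) < toLex (refl j a) := by
  refine ⟨i, fun l hl => ?_, ?_⟩
  · change refl j b l = refl j a l
    simp only [refl, h1 l hl]
  · change refl j b i < refl j a i
    simpa [refl, not_le.mpr hij] using h2

/-- the witness positions -/
noncomputable def wit {m : ℕ} (θ : ℝ) (a : Fin k → Fin m) : Fin k → ℝ :=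
  fun j => ((a j : ℕ) : ℝ) + θ * (rank (refl j a) : ℝ)

theorem construction {d : ℕ} (k m : ℕ) (hd : k * (k + 1) ≤ 2 * d) (h2 : 2 ≤ d) (hm : 1 ≤ m)
    (n : ℕ) (hn : 2 * d * (k * m * 2 ^ k + 1) ≤ n) :
    ∃ P : Set (E d), IsPolyhedron P n ∧
      ∀ (M : ℕ) (C : Fin M → Set (E d)), IsConvexPartition P C → m ^ k ≤ M := by
  classical
  have hPr : Fintype.card (Pr k) = k.choose 2 := by
    rw [Fintype.card_subtype, Fintype.card_product_filter_lt, Fintype.card_fin]
  have hch : k + k.choose 2 ≤ d := by
    have h1 : (k + 1).choose 2 = k + k.choose 2 := by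
      rw [Nat.choose_succ_succ' k 1, Nat.choose_one_right]
    have h3 : (k + 1).choose 2 = (k + 1) * k / 2 := by rw [Nat.choose_two_right]; simp
    have h4 : (k + 1) * k / 2 ≤ d := by
      apply Nat.div_le_of_le_mul
      rw [mul_comm (k + 1)]; exact hd
    omega
  set r := d - (k + k.choose 2) with hr
  have hcard : Fintype.card (I k r) = d := by
    simp only [Fintype.card_sum, Fintype.card_fin, hPr]
    omega
  let T₀ : E d ≃L[ℝ] (I k r → ℝ) := ContinuousLinearEquiv.ofFinrankEq (by simp [hcard])
  have hm' : (1 : ℝ) ≤ m := by exact_mod_cast hm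
  have hN : (1 : ℝ) ≤ (m : ℝ) ^ k := one_le_pow₀ hm'
  set θ : ℝ := 1 / (100 * (m : ℝ) ^ k) with hθdef
  have hθ : 0 < θ := by positivity
  have hθN : θ * (m : ℝ) ^ k = 1 / 100 := by rw [hθdef]; field_simp
  have hθ' : θ ≤ 1 / 100 := by nlinarith
  set ε : ℝ := θ / 32 with hεdef
  have hε : 0 < ε := by positivity
  have hε' : ε ≤ 1 / 100 := by linarith
  set τ : ℝ := ε / (2 * (m + 1)) with hτdef
  have hτ : 0 < τ := by positivity
  have hτε : τ * (2 * (m + 1)) = ε := div_mul_cancel₀ _ (by positivity)
  have hτ' : τ ≤ 1 / 4 := by nlinarith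
  set R : ℝ := ((m : ℝ) + 1) ^ 2 with hRdef
  have hR : (m : ℝ) + 1 ≤ R := by nlinarith
  have hξ : ∀ a : Fin k → Fin m, 0 ≤ θ * (rank a : ℝ) ∧ θ * (rank a : ℝ) ≤ 1 / 100 := by
    intro a
    refine ⟨by positivity, ?_⟩
    have : (rank a : ℝ) ≤ (m : ℝ) ^ k := by exact_mod_cast rank_le a
    nlinarith
  have hfin : ∀ b : Fin m, ((b : ℕ) : ℝ) + 1 ≤ m := fun b => by exact_mod_cast b.isLt
  have hw : ∀ (a : Fin k → Fin m) j, 0 ≤ wit θ a j ∧ wit θ a j ≤ m := by
    intro a j
    have h1 := hξ (refl j a)
    have h3 := hfin (a j)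
    have h4 : (0 : ℝ) ≤ ((a j : ℕ) : ℝ) := Nat.cast_nonneg _
    simp only [wit]
    constructor <;> linarith
  let β : Fin m → ℝ := fun b => ((b : ℕ) : ℝ) + 1 / 2
  have hβ0 : ∀ b, 0 ≤ β b := fun b => by simp only [β]; positivity
  have hβ : ∀ b, β b ≤ m := fun b => by have := hfin b; simp only [β]; linarith
  let A : Finset (Fin k × Fin m × (Fin k → Bool)) :=
    Finset.univ.filter (fun o => ∀ j, j ≤ o.1 → o.2.2 j = true)
  have hA : A.card ≤ k * m * 2 ^ k := by
    have := Finset.card_filter_le (Finset.univ : Finset (Fin k × Fin m × (Fin k → Bool)))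
      (fun o => ∀ j, j ≤ o.1 → o.2.2 j = true)
    simpa [mul_assoc] using this
  let T : Fin k × Fin m × (Fin k → Bool) → (E d ≃L[ℝ] (I k r → ℝ)) := fun o =>
    T₀.trans (shear o.1 (β o.2.1)).toContinuousLinearEquiv
  have hT : ∀ o x, T o x = shearFun o.1 (β o.2.1) (T₀ x) := fun o x => rfl
  let O : Fin k × Fin m × (Fin k → Bool) → Set (E d) := fun o =>
    T o ⁻¹' Icc (lo ε τ R o.1 (β o.2.1) o.2.2) (hi ε τ R o.1 (β o.2.1) o.2.2)
  let B : Set (E d) := T₀ ⁻¹' Icc (fun _ => -(R * (m + 2))) (fun _ => R * (m + 2))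
  have hRpos : 0 < R * (m + 2) := by positivity
  have hlh : ∀ (o : Fin k × Fin m × (Fin k → Bool)) (c : I k r),
      lo ε τ R o.1 (β o.2.1) o.2.2 c < hi ε τ R o.1 (β o.2.1) o.2.2 c :=
    fun o c => lo_lt_hi hε hε' hτ (by linarith) _ _ _ c
  have hcount : n = (2 * d + (n - 2 * d * (A.card + 1))) + A.card * (2 * d + 0) := by
    have h1 : 2 * d * (A.card + 1) ≤ 2 * d * (k * m * 2 ^ k + 1) :=
      Nat.mul_le_mul_left _ (by omega)
    have h3 : 2 * d * (A.card + 1) = 2 * d + A.card * (2 * d + 0) := by ring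
    omega
  refine ⟨B \ ⋃ o ∈ A, interior (O o), ?_, ?_⟩
  · rw [hcount]
    apply isPolyhedron_diff A B O (isCompact_box T₀ _ _)
      (closure_interior_box T₀ (fun _ => by linarith))
      (fun o _ => (isCompact_box (T o) _ _).isClosed)
      (fun o _ => closure_interior_box (T o) (hlh o))
    · intro o _ x hx
      rw [interior_box]
      exact obstacle_bound hε hε' hτ' (by linarith) hR (hβ0 _) (hβ _) hx
    · rintro ⟨i, b, s⟩ ho ⟨i', b', s'⟩ ho' hne
      rw [Set.disjoint_left]
      intro x hx hx'
      rcases lt_trichotomy i i' with h | h | h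
      · exact disjoint_lt hε' hτ (by nlinarith) h (hβ0 _) (hβ _) (hβ0 _) (hβ _) hx hx'
      · subst h
        have hbb : b = b' := by
          have a1 := hx.1 (.inl i)
          have a2 := hx.2 (.inl i)
          have a3 := hx'.1 (.inl i)
          have a4 := hx'.2 (.inl i)
          simp only [hT, lo, hi, shearFun, if_true, β] at a1 a2 a3 a4
          apply Fin.ext
          have c1 : ((b : ℕ) : ℝ) < (b' : ℕ) + 1 := by linarith
          have c2 : ((b' : ℕ) : ℝ) < (b : ℕ) + 1 := by linarith
          have c3 : (b : ℕ) < b' + 1 := by exact_mod_cast c1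
          have c4 : (b' : ℕ) < b + 1 := by exact_mod_cast c2
          omega
        subst hbb
        have hss : s ≠ s' := fun e => hne (by rw [e])
        obtain ⟨q, hq⟩ := Function.ne_iff.mp hss
        simp only [A, Finset.mem_filter, Finset.mem_univ, true_and] at ho ho'
        have hiq : i < q := by
          by_contra hc
          exact hq ((ho q (not_lt.mp hc)).trans (ho' q (not_lt.mp hc)).symm)
        have a1 := hx.1 (.inr (.inl ⟨(i, q), hiq⟩))
        have a2 := hx.2 (.inr (.inl ⟨(i, q), hiq⟩))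
        have a3 := hx'.1 (.inr (.inl ⟨(i, q), hiq⟩))
        have a4 := hx'.2 (.inr (.inl ⟨(i, q), hiq⟩))
        simp only [hT, lo, hi, if_true] at a1 a2 a3 a4
        cases h1 : s q <;> cases h3 : s' q <;> simp [h1, h3] at hq a1 a2 a3 a4 <;> linarith
      · exact disjoint_lt hε' hτ (by nlinarith) h (hβ0 _) (hβ _) (hβ0 _) (hβ _) hx' hx
    · exact hasFaces_box T₀ hcard h2 (fun _ => by linarith) _
    · exact fun o _ => hasFaces_box (T o) hcard h2 (hlh o) 0
  · intro M C hC
    have key : ∀ a b : Fin k → Fin m, toLex a < toLex b →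
        ¬ segment ℝ (T₀.symm (lift (wit θ a))) (T₀.symm (lift (wit θ b)))
          ⊆ B \ ⋃ o ∈ A, interior (O o) := by
      rintro a b ⟨i, h1, h3⟩ hsub
      change ∀ j, j < i → a j = b j at h1
      change a i < b i at h3
      have h3' : ((a i : ℕ) : ℝ) + 1 ≤ (b i : ℕ) := by exact_mod_cast h3
      obtain ⟨t, ht0, ht1, s, hs, hin⟩ := block (r := r) (τ := τ) hθ hεdef hτ hm' hRdef (wit θ a) (wit θ b)
        i (β (a i)) (hw a) (hw b)
        (by have := hξ (refl i a); simp only [wit, β]; linarith)
        (by have := hξ (refl i a); simp only [wit, β]; linarith)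
        (by have := hξ (refl i b); simp only [wit, β]; linarith)
        (by
          intro j hij
          have c1 := hξ (refl j a)
          have c2 := hξ (refl j b)
          simp only [wit]
          rcases lt_trichotomy (a j) (b j) with h | h | h
          · left
            have : ((a j : ℕ) : ℝ) + 1 ≤ (b j : ℕ) := by exact_mod_cast h
            linarith
          · left
            have : (rank (refl j a) : ℝ) + 1 ≤ rank (refl j b) := by
              exact_mod_cast rank_lt_rank (refl_lt_of_lt h1 h3 hij)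
            rw [h]; nlinarith
          · right
            have : ((b j : ℕ) : ℝ) + 1 ≤ (a j : ℕ) := by exact_mod_cast h
            linarith)
        (by
          intro j hij
          have c1 := hξ (refl j a)
          have c2 := hξ (refl j b)
          have : (rank (refl j b) : ℝ) + 1 ≤ rank (refl j a) := by
            exact_mod_cast rank_lt_rank (refl_lt_of_gt h1 h3 hij)
          simp only [wit]
          rw [h1 j hij]
          constructor <;> nlinarith)
      have hz := hsub ⟨1 - t, t, by linarith, ht0, by ring, rfl⟩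
      apply hz.2
      refine mem_biUnion (x := (i, a i, s)) (by simpa [A] using hs) ?_
      rw [interior_box]
      intro c
      rw [hT]
      simp only [map_add, map_smul, ContinuousLinearEquiv.apply_symm_apply]
      exact hin c
    have := card_le_of_hidden hC (fun a : Fin k → Fin m => T₀.symm (lift (wit θ a))) ?_ ?_
    · simpa using this
    · intro a
      constructor
      · simp only [B, mem_preimage, ContinuousLinearEquiv.apply_symm_apply]
        have hb : ∀ c : I k r, 0 ≤ lift (wit θ a) c ∧ lift (wit θ a) c ≤ R := by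
          rintro (j | p | j) <;> simp only [lift]
          · have := hw a j
            constructor <;> linarith
          · have a1 := hw a p.1.1
            have a2 := hw a p.1.2
            have b3 := mul_le_mul a1.2 a2.2 a2.1 (by linarith)
            exact ⟨mul_nonneg a1.1 a2.1, by nlinarith⟩
          · constructor <;> linarith
        constructor
        · intro c
          have := hb c
          simp only
          linarith
        · intro c
          have := hb c
          simp only
          nlinarith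
      · simp only [mem_iUnion, exists_prop, not_exists, not_and]
        rintro ⟨i, b, s⟩ _ hx
        rw [interior_box] at hx
        have h1 := hx (.inl i)
        simp only [hT, lo, hi, shearFun, if_true, β, ContinuousLinearEquiv.apply_symm_apply, lift,
          wit] at h1
        have c1 := hξ (refl i a)
        rcases le_or_gt (a i) b with h | h
        · have : ((a i : ℕ) : ℝ) ≤ (b : ℕ) := by exact_mod_cast h
          linarith
        · have : ((b : ℕ) : ℝ) + 1 ≤ (a i : ℕ) := by exact_mod_cast h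
          linarith
    · intro a b hab
      rcases lt_or_gt_of_ne (show toLex a ≠ toLex b from hab) with h | h
      · exact key a b h
      · rw [segment_symm]; exact key b a h

theorem lower_bound (k d : ℕ) (h2 : 2 ≤ d) (hd : k * (k + 1) ≤ 2 * d) :
    ∃ c : ℝ, 0 < c ∧ ∃ N : ℕ, ∀ n : ℕ, N ≤ n →
      ∃ P : Set (E d), IsPolyhedron P n ∧
        ∀ (M : ℕ) (C : Fin M → Set (E d)), IsConvexPartition P C → c * (n : ℝ) ^ k ≤ M := by
  set K := 2 * d * (k * 2 ^ k + 1) with hK
  have hK0 : 0 < K := by positivity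
  refine ⟨(1 / (2 * K : ℝ)) ^ k, by positivity, K, fun n hn => ?_⟩
  have hm : 1 ≤ n / K := (Nat.le_div_iff_mul_le hK0).mpr (by omega)
  have h1 : K * (n / K) ≤ n := Nat.mul_div_le n K
  have h3 : n < K * (n / K + 1) := Nat.lt_mul_div_succ n hK0
  obtain ⟨P, hP, hlow⟩ := construction k (n / K) hd h2 hm n (by
    refine le_trans ?_ h1
    generalize n / K = m at hm
    rw [hK, mul_assoc (2 * d)]
    apply Nat.mul_le_mul_left
    nlinarith)
  refine ⟨P, hP, fun M C hC => ?_⟩
  have h4 : (((n / K : ℕ) : ℝ)) ^ k ≤ M := by exact_mod_cast hlow M C hC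
  refine le_trans ?_ h4
  rw [← mul_pow]
  apply pow_le_pow_left₀ (by positivity)
  rw [one_div, inv_mul_le_iff₀ (by positivity)]
  have h5 : n ≤ 2 * K * (n / K) := by nlinarith
  exact_mod_cast h5

end Pool.Agent.MP_a2955b_co
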