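import Mathlib

set_option autoImplicit false

namespace Pool.Agent.MP_a2955b_co

/-- `C` is a `j`-dimensional convex polytope in `ℝ^d`. -/
def IsPolytope {d : ℕ} (j : ℕ) (C : Set (EuclideanSpace ℝ (Fin d))) : Prop :=
  ∃ V : Set (EuclideanSpace ℝ (Fin d)), V.Finite ∧ V.Nonempty ∧ C = convexHull ℝ V ∧
    Module.finrank ℝ (vectorSpan ℝ C) = j

/-- `P` is a polyhedron in `ℝ^d` with `n` faces. -/
def IsPolyhedron {d : ℕ} (P : Set (EuclideanSpace ℝ (Fin d))) (n : ℕ) : Prop :=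
  IsCompact P ∧ closure (interior P) = P ∧
    ∃ F : Fin n → Set (EuclideanSpace ℝ (Fin d)), (∀ i, IsPolytope (d - 1) (F i)) ∧
      frontier P = ⋃ i, F i ∧
      ∀ i j, i ≠ j → F i ∩ F j ⊆ intrinsicFrontier ℝ (F i) ∩ intrinsicFrontier ℝ (F j)

/-- `C` is a convex partition of `P` into `M` pieces. -/
def IsConvexPartition {d M : ℕ} (P : Set (EuclideanSpace ℝ (Fin d)))
    (C : Fin M → Set (EuclideanSpace ℝ (Fin d))) : Prop :=
  (∀ i, IsPolytope d (C i)) ∧ (∀ i j, i ≠ j → Disjoint (interior (C i)) (interior (C j))) ∧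
    ⋃ i, C i = P

end Pool.Agent.MP_a2955b_co
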